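import Mathlib

/-!
# Open Whyburn spaces with `S₁(Ω^s, Γ^s)`: `Q_p(X, ℝ)` is Fréchet-Urysohn at every point

Positive answer to Q2.  Let `X` be a Hausdorff space with `S₁(Ω^s, Γ^s)`.

* If `X` is infinite, the indexed form of the selection principle holds (remove from the members of
  the `n`-th cover a small regular closed set around a point `p k`, `k > n`).
* If `X` is open Whyburn, every nowhere dense set `N` is countable: every `x` has an open set `B x`
  with `x` in its closure and `closure (B x) ∩ N ⊆ {x}`; consider the covers by the sets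
  `closure (⋃ x ∈ K, B x)`, `K` finite.
* Hence the set `D` of discontinuity points of a quasicontinuous `f` is countable.  Let `D m` be
  finite sets increasing to `D`.  A first selection gives open sets `E m` with `D m ⊆ closure (E m)`
  such that every point outside `D` is in finitely many `closure (E m)` only; a second selection
  from the covers by regularisations of `{|g - f| < 1/(m+1)} \ D ∪ D m ∪ E m` (`g ∈ A` close to `f`
  on `D m`) gives a sequence in `A` which converges to `f`.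
-/

set_option autoImplicit false

namespace Pool.Agent.Results.MP_76989b_gt.OpenWhyburnFrechetUrysohn

open Set Filter Topology

universe u

/-! ### The notions of the problem -/

/-- Quasicontinuous real functions. -/
def Quasicontinuous {X : Type u} [TopologicalSpace X] (f : X → ℝ) : Prop :=
  ∀ x : X, ∀ U : Set X, IsOpen U → x ∈ U → ∀ V : Set ℝ, IsOpen V → f x ∈ V →
    ∃ W : Set X, IsOpen W ∧ W.Nonempty ∧ W ⊆ U ∧ f '' W ⊆ V

/-- The space `Q_p(X, ℝ)` of quasicontinuous real functions, a subspace of `ℝ^X`. -/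
abbrev Qp (X : Type u) [TopologicalSpace X] : Type u := {f : X → ℝ // Quasicontinuous f}

/-- The Fréchet-Urysohn property at a point. -/
def FrechetUrysohnAt {Y : Type u} [TopologicalSpace Y] (y : Y) : Prop :=
  ∀ A : Set Y, y ∈ closure A → ∃ s : ℕ → Y, (∀ n, s n ∈ A) ∧ Tendsto s atTop (𝓝 y)

/-- Minimally bounded sets. -/
def MinBounded {X : Type u} [TopologicalSpace X] (A : Set X) : Prop :=
  A ⊆ closure (interior A) ∧ interior (closure A) ⊆ A

/-- `Ω^s`: the `ω`-covers by minimally bounded sets. -/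
def OmegaS (X : Type u) [TopologicalSpace X] : Set (Set (Set X)) :=
  {U | ⋃₀ U = Set.univ ∧ (∀ u ∈ U, MinBounded u) ∧ ∀ F : Set X, F.Finite → ∃ u ∈ U, F ⊆ u}

/-- `Γ^s`: the `γ`-covers by minimally bounded sets. -/
def GammaS (X : Type u) [TopologicalSpace X] : Set (Set (Set X)) :=
  {U | ⋃₀ U = Set.univ ∧ (∀ u ∈ U, MinBounded u) ∧ ∀ x : X, {u | u ∈ U ∧ x ∉ u}.Finite}

/-- The selection principle `S₁(Ω^s, Γ^s)`. -/
def S1OmegaGamma (X : Type u) [TopologicalSpace X] : Prop :=
  ∀ 𝒰 : ℕ → Set (Set X), (∀ n, 𝒰 n ∈ OmegaS X) →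
    ∃ U : ℕ → Set X, (∀ n, U n ∈ 𝒰 n) ∧ Set.range U ∈ GammaS X

/-- Open Whyburn spaces. -/
def OpenWhyburn (X : Type u) [TopologicalSpace X] : Prop :=
  ∀ A : Set X, IsOpen A → ∀ x ∈ closure A \ A, ∃ B : Set X, IsOpen B ∧ B ⊆ A ∧ closure B \ A = {x}

/-! ### Semi-open sets -/

variable {X : Type u} [TopologicalSpace X]

/-- Semi-open sets. -/
def Semi (S : Set X) : Prop := S ⊆ closure (interior S)

lemma minBounded_iff {A : Set X} : MinBounded A ↔ Semi A ∧ Semi Aᶜ := by
  unfold MinBounded Semi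
  refine and_congr_right fun _ => ?_
  rw [interior_compl, closure_compl, compl_subset_compl]

lemma minBounded_union {S : Set X} (hS : Semi S) : MinBounded (S ∪ interior (closure S)) := by
  have h1 : closure (S ∪ interior (closure S)) ⊆ closure S :=
    closure_minimal (Set.union_subset subset_closure interior_subset) isClosed_closure
  constructor
  · have h2 : interior S ⊆ interior (S ∪ interior (closure S)) :=
      interior_mono Set.subset_union_left
    have h3 : closure S ⊆ closure (interior S) := closure_minimal hS isClosed_closure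
    refine Set.union_subset (hS.trans (closure_mono h2)) ?_
    exact (interior_subset.trans h3).trans (closure_mono h2)
  · exact (interior_mono h1).trans Set.subset_union_right

lemma Semi.union {S T : Set X} (hS : Semi S) (hT : Semi T) : Semi (S ∪ T) :=
  union_subset (hS.trans (closure_mono (interior_mono subset_union_left)))
    (hT.trans (closure_mono (interior_mono subset_union_right)))

lemma Semi.inter_open {S O : Set X} (hS : Semi S) (hO : IsOpen O) : Semi (S ∩ O) := by
  rintro x ⟨hx, hxO⟩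
  rw [mem_closure_iff]
  intro G hG hxG
  obtain ⟨y, ⟨hyG, hyO⟩, hy⟩ := mem_closure_iff.1 (hS hx) (G ∩ O) (hG.inter hO) ⟨hxG, hxO⟩
  refine ⟨y, hyG, ?_⟩
  rw [interior_inter, hO.interior_eq]
  exact ⟨hy, hyO⟩

lemma semi_closure {O : Set X} (hO : IsOpen O) : Semi (closure O) :=
  closure_mono (interior_maximal subset_closure hO)

lemma minBounded_closure {O : Set X} (hO : IsOpen O) : MinBounded (closure O) :=
  ⟨semi_closure hO, by rw [closure_closure]; exact interior_subset⟩

/-- Removing a regular closed set. -/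
lemma minBounded_diff {A G : Set X} (hA : MinBounded A) (hG : IsOpen G) :
    MinBounded (A \ closure G) := by
  rw [minBounded_iff] at hA ⊢
  refine ⟨hA.1.inter_open isClosed_closure.isOpen_compl, ?_⟩
  have h1 : (A \ closure G)ᶜ = Aᶜ ∪ closure G := by
    ext x
    simp only [mem_compl_iff, mem_diff, mem_union, not_and, not_not]
    tauto
  rw [h1]
  exact hA.2.union (semi_closure hG)

/-- In a Hausdorff space a point and a finite set not containing it are separated. -/
lemma exists_nhd [T2Space X] {x : X} {F : Set X} (hF : F.Finite) (hx : x ∉ F) :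
    ∃ G : Set X, IsOpen G ∧ x ∈ G ∧ Disjoint F (closure G) := by
  obtain ⟨U, V, hU, hV, hxU, hFV, hd⟩ := SeparatedNhds.of_isCompact_isCompact
    (isCompact_singleton (x := x)) hF.isCompact (disjoint_singleton_left.2 hx)
  refine ⟨U, hU, hxU rfl, ?_⟩
  exact (hd.closure_left hV).symm.mono_left hFV

/-! ### The indexed form of the selection principle -/

lemma strong [T2Space X] [Infinite X] (h : S1OmegaGamma X) (𝒰 : ℕ → Set (Set X))
    (h𝒰 : ∀ n, 𝒰 n ∈ OmegaS X) :
    ∃ U : ℕ → Set X, (∀ n, U n ∈ 𝒰 n) ∧ ∀ x, ∀ᶠ n in atTop, x ∈ U n := by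
  classical
  obtain ⟨p, hp⟩ : ∃ p : ℕ → X, Function.Injective p := ⟨_, (Infinite.natEmbedding X).injective⟩
  let 𝒱 : ℕ → Set (Set X) := fun n => {V | ∃ U ∈ 𝒰 n, ∃ G : Set X, IsOpen G ∧
    V = U \ closure G ∧ (∀ i ≤ n, p i ∈ V) ∧ ∃ k, p k ∈ G}
  have h𝒱fin : ∀ n, ∀ F : Set X, F.Finite → ∃ u ∈ 𝒱 n, F ⊆ u := by
    intro n F hF
    have hF' : (F ∪ p '' Iic n).Finite := hF.union ((finite_Iic n).image p)
    obtain ⟨k, hk⟩ : ∃ k, p k ∉ F ∪ p '' Iic n := by
      by_contra hcon
      push Not at hcon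
      exact (infinite_range_of_injective hp) (hF'.subset (by rintro _ ⟨k, rfl⟩; exact hcon k))
    obtain ⟨G, hG, hkG, hd⟩ := exists_nhd hF' hk
    obtain ⟨U, hU, hFU⟩ := (h𝒰 n).2.2 _ hF'
    have hsub : F ∪ p '' Iic n ⊆ U \ closure G := fun x hx =>
      ⟨hFU hx, fun hx' => disjoint_left.1 hd hx hx'⟩
    exact ⟨U \ closure G, ⟨U, hU, G, hG, rfl, fun i hi => hsub (Or.inr ⟨i, hi, rfl⟩), k, hkG⟩,
      subset_union_left.trans hsub⟩
  have h𝒱 : ∀ n, 𝒱 n ∈ OmegaS X := by
    intro n
    refine ⟨?_, ?_, h𝒱fin n⟩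
    · rw [eq_univ_iff_forall]
      intro x
      obtain ⟨u, hu, hx⟩ := h𝒱fin n {x} (finite_singleton x)
      exact ⟨u, hu, hx rfl⟩
    · rintro _ ⟨U, hU, G, hG, rfl, -, -⟩
      exact minBounded_diff ((h𝒰 n).2.1 U hU) hG
  obtain ⟨V, hV, -, -, hfin⟩ := h 𝒱 h𝒱
  choose U hU G hG hVU hpV k hk using hV
  refine ⟨U, hU, fun x => ?_⟩
  have h1 : {n | x ∉ V n}.Finite := by
    have h2 : {n | x ∉ V n} ⊆ ⋃ u ∈ {u | u ∈ range V ∧ x ∉ u}, {n | V n = u} := by
      intro n hn
      rw [mem_iUnion₂]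
      exact ⟨V n, ⟨⟨n, rfl⟩, hn⟩, rfl⟩
    refine ((hfin x).biUnion ?_).subset h2
    rintro _ ⟨⟨n, rfl⟩, -⟩
    refine (finite_Iio (k n)).subset ?_
    intro m hm
    by_contra hcon
    rw [mem_Iio, not_lt] at hcon
    have h3 := hpV m (k n) hcon
    rw [show V m = V n from hm, hVU n] at h3
    exact h3.2 (subset_closure (hk n))
  have h2 : ∀ᶠ n in atTop, x ∈ V n := by
    rw [← Nat.cofinite_eq_atTop]
    exact h1
  filter_upwards [h2] with n hn
  rw [hVU n] at hn
  exact hn.1

/-! ### Nowhere dense sets are countable -/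

lemma exists_whyburn [T2Space X] (hW : OpenWhyburn X) {N : Set X} (hN : IsClosed N)
    (hint : interior N = ∅) (x : X) :
    ∃ B : Set X, IsOpen B ∧ x ∈ closure B ∧ closure B ∩ N ⊆ {x} := by
  by_cases hx : x ∈ N
  · have h1 : x ∈ closure Nᶜ \ Nᶜ := by
      refine ⟨?_, fun h => h hx⟩
      rw [closure_compl, hint]
      exact fun h => h
    obtain ⟨B, hB, -, hBx⟩ := hW Nᶜ hN.isOpen_compl x h1
    have h2 : x ∈ closure B \ Nᶜ := by rw [hBx]; rfl
    refine ⟨B, hB, h2.1, fun y hy => ?_⟩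
    rw [← hBx]
    exact ⟨hy.1, fun h => h hy.2⟩
  · by_cases hi : IsOpen ({x} : Set X)
    · refine ⟨{x}, hi, subset_closure rfl, ?_⟩
      rw [closure_singleton]
      exact inter_subset_left
    · have h1 : x ∈ closure (N ∪ {x})ᶜ \ (N ∪ {x})ᶜ := by
        refine ⟨?_, fun h => h (Or.inr rfl)⟩
        rw [mem_closure_iff]
        intro O hO hxO
        by_contra hcon
        rw [not_nonempty_iff_eq_empty] at hcon
        apply hi
        have h3 : ({x} : Set X) = O ∩ Nᶜ := by
          apply Subset.antisymm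
          · rintro _ rfl
            exact ⟨hxO, hx⟩
          · rintro y ⟨hy, hyN⟩
            by_contra hyx
            have : y ∈ O ∩ (N ∪ {x})ᶜ := ⟨hy, by rintro (h | h); exacts [hyN h, hyx h]⟩
            rw [hcon] at this
            exact this
        rw [h3]
        exact hO.inter hN.isOpen_compl
      obtain ⟨B, hB, -, hBx⟩ := hW _ (hN.union isClosed_singleton).isOpen_compl x h1
      have h2 : x ∈ closure B \ (N ∪ {x})ᶜ := by rw [hBx]; rfl
      refine ⟨B, hB, h2.1, fun y hy => ?_⟩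
      rw [← hBx]
      exact ⟨hy.1, fun h => h (Or.inl hy.2)⟩

lemma countable_closed [T2Space X] (hW : OpenWhyburn X) (hS : S1OmegaGamma X) {N : Set X}
    (hN : IsClosed N) (hint : interior N = ∅) : N.Countable := by
  choose B hB hxB hBN using exists_whyburn hW hN hint
  let 𝒰 : Set (Set X) := {W | ∃ K : Set X, K.Finite ∧ W = closure (⋃ x ∈ K, B x)}
  have h𝒰fin : ∀ F : Set X, F.Finite → ∃ u ∈ 𝒰, F ⊆ u := by
    intro F hF
    refine ⟨_, ⟨F, hF, rfl⟩, fun x hx => ?_⟩
    exact closure_mono (subset_biUnion_of_mem (u := B) hx) (hxB x)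
  have h𝒰 : 𝒰 ∈ OmegaS X := by
    refine ⟨?_, ?_, h𝒰fin⟩
    · rw [eq_univ_iff_forall]
      intro x
      obtain ⟨u, hu, hx⟩ := h𝒰fin {x} (finite_singleton x)
      exact ⟨u, hu, hx rfl⟩
    · rintro _ ⟨K, -, rfl⟩
      exact minBounded_closure (isOpen_biUnion fun x _ => hB x)
  obtain ⟨U, hU, hcov, -⟩ := hS (fun _ => 𝒰) (fun _ => h𝒰)
  choose K hK hUK using hU
  refine (countable_iUnion fun n => (hK n).countable).mono ?_
  intro x hx
  have h1 : x ∈ ⋃₀ range U := by rw [hcov]; trivial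
  obtain ⟨_, ⟨n, rfl⟩, hxn⟩ := h1
  rw [hUK n, (hK n).closure_biUnion, mem_iUnion₂] at hxn
  obtain ⟨y, hy, hxy⟩ := hxn
  have h2 : x = y := hBN y ⟨hxy, hx⟩
  rw [mem_iUnion]
  exact ⟨n, h2 ▸ hy⟩

/-! ### Discontinuity points -/

/-- The set of the points of discontinuity. -/
def Disc (f : X → ℝ) : Set X := {x | ¬ ContinuousAt f x}

lemma disc_countable [T2Space X] (hW : OpenWhyburn X) (hS : S1OmegaGamma X) {f : X → ℝ}
    (hf : Quasicontinuous f) : (Disc f).Countable := by
  let Dn : ℕ → Set X := fun n => {x | ∀ U : Set X, IsOpen U → x ∈ U →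
    ∃ y ∈ U, ∃ z ∈ U, 1 / ((n : ℝ) + 1) ≤ |f y - f z|}
  have hcl : ∀ n, IsClosed (Dn n) := by
    intro n
    rw [← isOpen_compl_iff, isOpen_iff_forall_mem_open]
    intro x hx
    simp only [Dn, mem_compl_iff, mem_setOf_eq, not_forall] at hx
    obtain ⟨U, hU, hxU, hxx⟩ := hx
    exact ⟨U, fun y hy hcon => hxx (hcon U hU hy), hU, hxU⟩
  have hint : ∀ n, interior (Dn n) = ∅ := by
    intro n
    rw [eq_empty_iff_forall_notMem]
    intro x hx
    have hpos : (0:ℝ) < 1 / ((n : ℝ) + 1) := by positivity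
    obtain ⟨W, hWo, ⟨w, hw⟩, hWs, hWV⟩ := hf x _ isOpen_interior hx
      (Metric.ball (f x) (1 / ((n : ℝ) + 1) / 2)) Metric.isOpen_ball
      (Metric.mem_ball_self (half_pos hpos))
    obtain ⟨y, hy, z, hz, hyz⟩ := interior_subset (hWs hw) W hWo hw
    have h1 := hWV ⟨y, hy, rfl⟩
    have h2 := hWV ⟨z, hz, rfl⟩
    rw [Metric.mem_ball, Real.dist_eq] at h1 h2
    have h3 : |f y - f z| ≤ |f y - f x| + |f z - f x| := by
      rw [show f y - f z = (f y - f x) - (f z - f x) by ring]
      exact abs_sub _ _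
    linarith
  refine (countable_iUnion fun n => countable_closed hW hS (hcl n) (hint n)).mono ?_
  intro x hx
  by_contra hcon
  apply hx
  rw [Metric.continuousAt_iff']
  intro ε hε
  obtain ⟨n, hn⟩ := exists_nat_one_div_lt hε
  rw [mem_iUnion, not_exists] at hcon
  have h1 := hcon n
  simp only [Dn, mem_setOf_eq, not_forall] at h1
  obtain ⟨U, hU, hxU, hxx⟩ := h1
  push Not at hxx
  filter_upwards [hU.mem_nhds hxU] with y hy
  rw [Real.dist_eq]
  exact (hxx y hy x hxU).trans hn

/-- Near a discontinuity point there are two disjoint open sets. -/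
lemma two_sides {f : X → ℝ} (hf : Quasicontinuous f) {d : X} (hd : d ∈ Disc f) :
    ∃ U V : Set X, IsOpen U ∧ IsOpen V ∧ Disjoint U V ∧ d ∈ closure U ∧ d ∈ closure V ∧ d ∉ U := by
  have h1 : ∃ ε > 0, ∀ O : Set X, IsOpen O → d ∈ O → ∃ y ∈ O, ε ≤ |f y - f d| := by
    by_contra hcon
    push Not at hcon
    apply hd
    rw [Metric.continuousAt_iff']
    intro ε hε
    obtain ⟨O, hO, hdO, hOy⟩ := hcon ε hε
    filter_upwards [hO.mem_nhds hdO] with y hy
    rw [Real.dist_eq]
    exact hOy y hy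
  obtain ⟨ε, hε, hO⟩ := h1
  refine ⟨interior {y | |f y - f d| < ε / 2}, interior {y | ε / 2 < |f y - f d|}, isOpen_interior,
    isOpen_interior, ?_, ?_, ?_, ?_⟩
  · rw [disjoint_left]
    intro y hy hy'
    have h3 : y ∈ {y | |f y - f d| < ε / 2} := interior_subset hy
    have h4 : y ∈ {y | ε / 2 < |f y - f d|} := interior_subset hy'
    exact lt_asymm (show |f y - f d| < ε / 2 from h3) (show ε / 2 < |f y - f d| from h4)
  · rw [mem_closure_iff]
    intro G hG hdG
    obtain ⟨W, hW, ⟨w, hw⟩, hWG, hWV⟩ := hf d G hG hdG {t | |t - f d| < ε / 2}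
      (isOpen_lt (continuous_abs.comp (continuous_id.sub continuous_const)) continuous_const)
      (by simp only [mem_setOf_eq, sub_self, abs_zero]; positivity)
    exact ⟨w, hWG hw, mem_interior.2 ⟨W, fun z hz => hWV ⟨z, hz, rfl⟩, hW, hw⟩⟩
  · rw [mem_closure_iff]
    intro G hG hdG
    obtain ⟨y, hy, hyε⟩ := hO G hG hdG
    obtain ⟨W, hW, ⟨w, hw⟩, hWG, hWV⟩ := hf y G hG hy {t | ε / 2 < |t - f d|}
      (isOpen_lt continuous_const (continuous_abs.comp (continuous_id.sub continuous_const)))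
      (by simp only [mem_setOf_eq]; linarith)
    exact ⟨w, hWG hw, mem_interior.2 ⟨W, fun z hz => hWV ⟨z, hz, rfl⟩, hW, hw⟩⟩
  · intro hcon
    obtain ⟨y, hy, hyε⟩ := hO _ isOpen_interior hcon
    have h2 : y ∈ {y | |f y - f d| < ε / 2} := interior_subset hy
    have h3 : |f y - f d| < ε / 2 := h2
    linarith

/-! ### The first selection -/

/-- The sets which contain the finite set `K` and whose complement accumulates at the points of
`F`. -/
lemma exists_sep [T2Space X] {f : X → ℝ} (hf : Quasicontinuous f) {F : Set X} (hF : F.Finite)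
    (hFD : F ⊆ Disc f) {K : Set X} (hK : K.Finite) :
    ∃ E : Set X, IsOpen E ∧ F ⊆ closure E ∧ MinBounded (closure E \ F)ᶜ ∧ K ⊆ (closure E \ F)ᶜ := by
  classical
  choose! U V hU hV hUV hdU hdV hd using fun d (hd : d ∈ Disc f) => two_sides hf hd
  have hfin : ∀ d : X, ((F ∪ K) \ {d}).Finite := fun d => (hF.union hK).subset diff_subset
  choose N hN hdN hNd using fun d : X => exists_nhd (hfin d) (fun h : d ∈ (F ∪ K) \ {d} => h.2 rfl)
  have hFN : ∀ d, ∀ y ∈ F ∪ K, y ∈ closure (N d) → y = d := by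
    intro d y hy hyN
    by_contra hyd
    exact disjoint_left.1 (hNd d) ⟨hy, hyd⟩ hyN
  let E : Set X := ⋃ d ∈ F, N d ∩ U d
  have hE : IsOpen E := isOpen_biUnion fun d hd => (hN d).inter (hU d (hFD hd))
  have hclE : closure E = ⋃ d ∈ F, closure (N d ∩ U d) := hF.closure_biUnion _
  have hFE : F ⊆ closure E := by
    intro d hdF
    rw [mem_closure_iff]
    intro G hG hdG
    obtain ⟨y, ⟨hy1, hy2⟩, hy3⟩ := mem_closure_iff.1 (hdU d (hFD hdF)) (G ∩ N d)
      (hG.inter (hN d)) ⟨hdG, hdN d⟩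
    exact ⟨y, hy1, mem_biUnion hdF ⟨hy2, hy3⟩⟩
  have hEF : Disjoint E F := by
    rw [disjoint_left]
    intro y hy hyF
    obtain ⟨d, hdF, hy1, hy2⟩ := mem_iUnion₂.1 hy
    have h1 : y = d := hFN d y (Or.inl hyF) (subset_closure hy1)
    subst h1
    exact hd y (hFD hdF) hy2
  have hsub : (closure E)ᶜ ⊆ interior (closure E \ F)ᶜ :=
    interior_maximal (fun y hy hy' => hy hy'.1) isClosed_closure.isOpen_compl
  refine ⟨E, hE, hFE, ?_, ?_⟩
  · rw [minBounded_iff]
    constructor
    · intro y hy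
      by_cases hyE : y ∈ closure E
      · have hyF : y ∈ F := by
          by_contra h
          exact hy ⟨hyE, h⟩
        apply closure_mono hsub
        rw [mem_closure_iff]
        intro G hG hyG
        have hO : IsOpen (G ∩ (N y ∩ ⋂ d ∈ F \ {y}, (closure (N d))ᶜ)) := by
          refine hG.inter ((hN y).inter ?_)
          exact (hF.subset diff_subset).isOpen_biInter fun d _ => isClosed_closure.isOpen_compl
        have hyO : y ∈ G ∩ (N y ∩ ⋂ d ∈ F \ {y}, (closure (N d))ᶜ) := by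
          refine ⟨hyG, hdN y, ?_⟩
          rw [mem_iInter₂]
          rintro d ⟨-, hdy⟩ hcon
          exact hdy (hFN d y (Or.inl hyF) hcon).symm
        obtain ⟨z, ⟨hzG, hzN, hzI⟩, hzV⟩ := mem_closure_iff.1 (hdV y (hFD hyF)) _ hO hyO
        refine ⟨z, hzG, ?_⟩
        intro hcon
        rw [hclE, mem_iUnion₂] at hcon
        obtain ⟨d, hdF, hzd⟩ := hcon
        by_cases hdy : d = y
        · subst hdy
          obtain ⟨w, hwV, -, hwU⟩ := mem_closure_iff.1 hzd (V d) (hV d (hFD hdF)) hzV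
          exact disjoint_left.1 (hUV d (hFD hdF)) hwU hwV
        · exact mem_iInter₂.1 hzI d ⟨hdF, hdy⟩ (closure_mono inter_subset_left hzd)
      · exact subset_closure (hsub hyE)
    · rw [compl_compl]
      have h1 : E ⊆ interior (closure E \ F) :=
        interior_maximal (fun y hy => ⟨subset_closure hy, disjoint_left.1 hEF hy⟩) hE
      exact diff_subset.trans (closure_mono h1)
  · rintro y hy ⟨hyE, hyF⟩
    rw [hclE, mem_iUnion₂] at hyE
    obtain ⟨d, hdF, hyd⟩ := hyE
    have h1 : y = d := hFN d y (Or.inr hy) (closure_mono inter_subset_left hyd)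
    exact hyF (h1 ▸ hdF)

/-! ### The second selection -/

lemma near {f g : X → ℝ} {x : X} (hf : ContinuousAt f x) (hg : Quasicontinuous g) {P : ℝ → Prop}
    (hP : IsOpen {t | P t}) (hx : P (g x - f x)) {G : Set X} (hG : IsOpen G) (hxG : x ∈ G) :
    ∃ W : Set X, IsOpen W ∧ W.Nonempty ∧ W ⊆ G ∧ ∀ y ∈ W, P (g y - f y) := by
  obtain ⟨δ, hδ, hball⟩ := Metric.isOpen_iff.1 hP (g x - f x) hx
  obtain ⟨O, hOs, hO, hxO⟩ := mem_nhds_iff.1 (Metric.continuousAt_iff'.1 hf (δ / 2) (half_pos hδ))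
  obtain ⟨W, hW, hne, hWG, hWV⟩ := hg x (G ∩ O) (hG.inter hO) ⟨hxG, hxO⟩
    (Metric.ball (g x) (δ / 2)) Metric.isOpen_ball (Metric.mem_ball_self (half_pos hδ))
  refine ⟨W, hW, hne, hWG.trans inter_subset_left, fun y hy => ?_⟩
  apply hball
  have h1 : dist (f y) (f x) < δ / 2 := hOs (hWG hy).2
  have h2 : dist (g y) (g x) < δ / 2 := hWV ⟨y, hy, rfl⟩
  rw [Metric.mem_ball, Real.dist_eq]
  rw [Real.dist_eq] at h1 h2
  have h3 : |g y - f y - (g x - f x)| ≤ |g y - g x| + |f y - f x| := by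
    rw [show g y - f y - (g x - f x) = (g y - g x) - (f y - f x) by ring]
    exact abs_sub _ _
  linarith

lemma exists_mem_close {f : Qp X} {A : Set (Qp X)} (hA : f ∈ closure A) {F : Set X}
    (hF : F.Finite) {ε : ℝ} (hε : 0 < ε) : ∃ g ∈ A, ∀ x ∈ F, |g.1 x - f.1 x| < ε := by
  have hopen : IsOpen {g : Qp X | ∀ x ∈ F, |g.1 x - f.1 x| < ε} := by
    have h1 : {g : Qp X | ∀ x ∈ F, |g.1 x - f.1 x| < ε} =
        ⋂ x ∈ F, {g : Qp X | |g.1 x - f.1 x| < ε} := by
      ext g
      simp
    rw [h1]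
    refine hF.isOpen_biInter fun x _ => ?_
    exact isOpen_lt (continuous_abs.comp
      (((continuous_apply x).comp continuous_subtype_val).sub continuous_const)) continuous_const
  obtain ⟨g, hg, hgA⟩ := mem_closure_iff.1 hA _ hopen (by
    intro x _
    simpa using hε)
  exact ⟨g, hgA, hg⟩

/-- Fréchet-Urysohn at every point with countably many points of discontinuity. -/
lemma main_inf [T2Space X] [Infinite X] (hS : S1OmegaGamma X) (f : Qp X)
    (hD : (Disc f.1).Countable) : FrechetUrysohnAt f := by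
  classical
  intro A hA
  obtain ⟨c, hc⟩ := countable_iff_exists_injOn.1 hD
  set D := Disc f.1 with hDdef
  let Dm : ℕ → Set X := fun m => {x ∈ D | c x ≤ m}
  have hDm : ∀ m, (Dm m).Finite := by
    intro m
    refine Set.Finite.of_finite_image (f := c) ((finite_Iic m).subset ?_)
      (hc.mono fun x hx => hx.1)
    rintro _ ⟨x, hx, rfl⟩
    exact hx.2
  have hDmD : ∀ m, Dm m ⊆ D := fun m x hx => hx.1
  -- first selection
  let 𝒱 : ℕ → Set (Set X) := fun m => {W | MinBounded W ∧ ∃ E : Set X, IsOpen E ∧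
    Dm m ⊆ closure E ∧ W = (closure E \ Dm m)ᶜ}
  have h𝒱fin : ∀ m, ∀ F : Set X, F.Finite → ∃ u ∈ 𝒱 m, F ⊆ u := by
    intro m F hF
    obtain ⟨E, hE, h1, h2, h3⟩ := exists_sep f.2 (hDm m) (hDmD m) hF
    exact ⟨_, ⟨h2, E, hE, h1, rfl⟩, h3⟩
  have h𝒱 : ∀ n, 𝒱 n ∈ OmegaS X := by
    intro n
    refine ⟨?_, fun u hu => hu.1, h𝒱fin n⟩
    rw [eq_univ_iff_forall]
    intro x
    obtain ⟨u, hu, hx⟩ := h𝒱fin n {x} (finite_singleton x)
    exact ⟨u, hu, hx rfl⟩
  obtain ⟨V, hV, hVx⟩ := strong hS 𝒱 h𝒱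
  choose E hE hDE hVE using fun n => (hV n).2
  have hEx : ∀ x ∉ D, ∀ᶠ m in atTop, x ∉ closure (E m) := by
    intro x hx
    filter_upwards [hVx x] with m hm hcon
    rw [hVE m] at hm
    exact hm ⟨hcon, fun h => hx (hDmD m h)⟩
  -- second selection
  let S : Qp X → ℕ → Set X := fun g m => {x | |g.1 x - f.1 x| < 1 / ((m : ℝ) + 1)}
  let P : Qp X → ℕ → Set X := fun g m => (S g m \ D) ∪ Dm m ∪ interior (S g m) ∪ E m
  have hpos : ∀ m : ℕ, (0:ℝ) < 1 / ((m : ℝ) + 1) := fun m => by positivity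
  have hsemi : ∀ g m, Semi (P g m) := by
    intro g m
    have hint : interior (S g m) ∪ E m ⊆ interior (P g m) := by
      refine interior_maximal ?_ (isOpen_interior.union (hE m))
      rintro x (hx | hx)
      · exact Or.inl (Or.inr hx)
      · exact Or.inr hx
    refine Subset.trans ?_ (closure_mono hint)
    rintro x (((hx | hx) | hx) | hx)
    · rw [mem_closure_iff]
      intro G hG hxG
      have hcont : ContinuousAt f.1 x := by
        by_contra h
        exact hx.2 h
      have hP : IsOpen {t : ℝ | |t| < 1 / ((m : ℝ) + 1)} :=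
        isOpen_lt continuous_abs continuous_const
      obtain ⟨W, hW, ⟨w, hw⟩, hWG, hWP⟩ := near hcont g.2 hP
        (show |g.1 x - f.1 x| < 1 / ((m : ℝ) + 1) from hx.1) hG hxG
      exact ⟨w, hWG hw, Or.inl (mem_interior.2 ⟨W, fun z hz => hWP z hz, hW, hw⟩)⟩
    · exact closure_mono subset_union_right (hDE m hx)
    · exact subset_closure (Or.inl hx)
    · exact subset_closure (Or.inr hx)
  let 𝒲 : ℕ → Set (Set X) := fun n => {V | ∃ m ≥ n, ∃ g ∈ A,
    (∀ x ∈ Dm m, |g.1 x - f.1 x| < 1 / ((m : ℝ) + 1)) ∧ V = P g m ∪ interior (closure (P g m))}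
  have h𝒲fin : ∀ n, ∀ F : Set X, F.Finite → ∃ u ∈ 𝒲 n, F ⊆ u := by
    intro n F hF
    obtain ⟨b, hb⟩ := (hF.image c).bddAbove
    obtain ⟨g, hgA, hg⟩ := exists_mem_close hA (hF.union (hDm (max n b))) (hpos (max n b))
    refine ⟨_, ⟨max n b, le_max_left _ _, g, hgA, fun x hx => hg x (Or.inr hx), rfl⟩, ?_⟩
    intro x hx
    by_cases hxD : x ∈ D
    · exact Or.inl (Or.inl (Or.inl (Or.inr ⟨hxD, (hb ⟨x, hx, rfl⟩).trans (le_max_right _ _)⟩)))
    · exact Or.inl (Or.inl (Or.inl (Or.inl ⟨hg x (Or.inl hx), hxD⟩)))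
  have h𝒲 : ∀ n, 𝒲 n ∈ OmegaS X := by
    intro n
    refine ⟨?_, ?_, h𝒲fin n⟩
    · rw [eq_univ_iff_forall]
      intro x
      obtain ⟨u, hu, hx⟩ := h𝒲fin n {x} (finite_singleton x)
      exact ⟨u, hu, hx rfl⟩
    · rintro _ ⟨m, -, g, -, -, rfl⟩
      exact minBounded_union (hsemi g m)
  obtain ⟨W, hW, hWx⟩ := strong hS 𝒲 h𝒲
  choose m hm g hgA hgD hWP using hW
  have hmt : Tendsto m atTop atTop := tendsto_atTop_mono hm tendsto_id
  refine ⟨g, hgA, ?_⟩
  rw [tendsto_subtype_rng, tendsto_pi_nhds]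
  intro x
  have hev : ∀ᶠ n in atTop, |(g n).1 x - f.1 x| ≤ 1 / ((n : ℝ) + 1) := by
    have hle : ∀ n, 1 / ((m n : ℝ) + 1) ≤ 1 / ((n : ℝ) + 1) := by
      intro n
      have h1 : (n : ℝ) ≤ m n := by exact_mod_cast hm n
      gcongr
    by_cases hxD : x ∈ D
    · filter_upwards [hmt.eventually_ge_atTop (c x)] with n hn
      exact (hgD n x ⟨hxD, hn⟩).le.trans (hle n)
    · filter_upwards [hWx x, hmt.eventually (hEx x hxD)] with n hn hnE
      refine le_trans ?_ (hle n)
      rw [hWP n] at hn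
      rcases hn with (((hx | hx) | hx) | hx) | hx
      · exact le_of_lt hx.1
      · exact absurd hx.1 hxD
      · have h1 : x ∈ S (g n) (m n) := interior_subset hx
        exact le_of_lt h1
      · exact absurd (subset_closure hx) hnE
      · by_contra hcon
        push Not at hcon
        have hcont : ContinuousAt f.1 x := by
          by_contra h
          exact hxD h
        have hP : IsOpen {t : ℝ | 1 / ((m n : ℝ) + 1) < |t|} :=
          isOpen_lt continuous_const continuous_abs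
        obtain ⟨O, hO, ⟨w, hw⟩, hOG, hOP⟩ := near hcont (g n).2 hP hcon
          (G := interior (closure (P (g n) (m n))) ∩ (closure (E (m n)))ᶜ)
          (isOpen_interior.inter isClosed_closure.isOpen_compl) ⟨hx, hnE⟩
        obtain ⟨z, hzO, hzP⟩ := mem_closure_iff.1 (interior_subset (hOG hw).1) O hO hw
        have h1 : 1 / ((m n : ℝ) + 1) < |(g n).1 z - f.1 z| := hOP z hzO
        have h2 : z ∉ closure (E (m n)) := (hOG hzO).2
        rcases hzP with ((hz | hz) | hz) | hz
        · exact absurd (lt_trans h1 hz.1) (lt_irrefl _)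
        · exact h2 (hDE _ hz)
        · have h3 : z ∈ S (g n) (m n) := interior_subset hz
          exact absurd (lt_trans h1 h3) (lt_irrefl _)
        · exact h2 (subset_closure hz)
  rw [tendsto_iff_dist_tendsto_zero]
  refine squeeze_zero' (Eventually.of_forall fun n => dist_nonneg) ?_
    tendsto_one_div_add_atTop_nhds_zero_nat
  filter_upwards [hev] with n hn
  rw [Real.dist_eq]
  exact hn

lemma main_fin [Finite X] (f : Qp X) : FrechetUrysohnAt f := by
  intro A hA
  exact mem_closure_iff_seq_limit.1 hA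

/-- **Positive answer to Q2.**  Let `X` be a Hausdorff space with `S₁(Ω^s, Γ^s)`.  (1) If `X` is open
Whyburn, then `Q_p(X, ℝ)` is Fréchet-Urysohn at each of its points.  (2) For every such `X` (open
Whyburn or not) `Q_p(X, ℝ)` is Fréchet-Urysohn at every `f` with at most countably many points of
discontinuity.  (3) If `X` is open Whyburn, then all nowhere dense subsets of `X` are countable. -/
theorem result (X : Type u) [TopologicalSpace X] [T2Space X] (hS : S1OmegaGamma X) :
    (OpenWhyburn X → ∀ f : Qp X, FrechetUrysohnAt f) ∧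
    (∀ f : Qp X, {x | ¬ ContinuousAt f.1 x}.Countable → FrechetUrysohnAt f) ∧
    (OpenWhyburn X → ∀ N : Set X, IsNowhereDense N → N.Countable) := by
  have h2 : ∀ f : Qp X, {x | ¬ ContinuousAt f.1 x}.Countable → FrechetUrysohnAt f := by
    intro f hf
    rcases finite_or_infinite X with h | h
    · exact main_fin f
    · exact main_inf hS f hf
  refine ⟨fun hW f => h2 f (disc_countable hW hS f.2), h2, fun hW N hN => ?_⟩
  exact (countable_closed hW hS isClosed_closure hN).mono subset_closure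

end Pool.Agent.Results.MP_76989b_gt.OpenWhyburnFrechetUrysohn
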